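import Pool.Agent.H25.NB.Finite

/-!
# The exponent `k` is small compared with `d`
-/

set_option autoImplicit false

namespace Pool.Agent.Results.MP_4d5ac9_nt.ExponentBound

/-- Let `q = r^e` with `r` prime, `p` prime, `d >= 4`, and `k > 1` odd with `k` dividing `r - 1`,
and let `(q^d - 1)/(q - 1) = p^k`. Then `k^3 <= 10^31 * d^2 * (log d)^8`, and for every real
`θ > 2/3` the set of these `(q, d, p, k)` with `d^θ <= k` is finite. -/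
theorem result :
    (∀ r e d p k : ℕ, r.Prime → 1 ≤ e → p.Prime → 4 ≤ d → 1 < k → Odd k → k ∣ r - 1 →
      ((r ^ e) ^ d - 1) / (r ^ e - 1) = p ^ k →
      (k : ℝ) ^ 3 ≤ 10 ^ 31 * ((d : ℝ) ^ 2 * Real.log d ^ 8)) ∧
    ∀ θ : ℝ, 2 / 3 < θ → {x : ℕ × ℕ × ℕ × ℕ | ∃ r e d p k : ℕ, x = (r ^ e, d, p, k) ∧
      r.Prime ∧ 1 ≤ e ∧ p.Prime ∧ 4 ≤ d ∧ 1 < k ∧ Odd k ∧ k ∣ r - 1 ∧
      ((r ^ e) ^ d - 1) / (r ^ e - 1) = p ^ k ∧ (d : ℝ) ^ θ ≤ (k : ℝ)}.Finite := by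
  constructor
  · intro r e d p k hr he hp hd hk hodd hkr h
    exact Pool.Agent.H25.NB.exponent_bound hd hp hr he hk hodd hkr h
  · intro θ hθ
    refine ((Pool.Agent.H25.NB.region_finite hθ).image
      (fun x => (x.1 ^ x.2.1, x.2.2.1, x.2.2.2.1, x.2.2.2.2))).subset ?_
    rintro _ ⟨r, e, d, p, k, rfl, hr, he, hp, hd, hk, hodd, hkr, h, hθ'⟩
    exact ⟨(r, e, d, p, k), ⟨⟨hr, he, hp, hd, hk, hodd, hkr, h⟩, hθ'⟩, rfl⟩

end Pool.Agent.Results.MP_4d5ac9_nt.ExponentBound
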