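import Pool.Agent.H24.RCN.Fin

/-!
# Many ideal classes, for the prime-power Nagell-Ljunggren equation
-/

set_option autoImplicit false

open NumberField

namespace Pool.Agent.Results.MP_4d5ac9_nt.ManyClasses

/-- Let `q = r^e ≥ 33` and `(q^d - 1)/(q - 1) = p^k`, let `m` be an odd divisor of `k` and of
`r - 1`, and let `5 s ≤ m`. Then the class group of the `d`-th cyclotomic field has at least
`binom ((d-1)/3 + s, s)` elements killed by `m`. -/
theorem result {r e d p k m s : ℕ} (hr : r.Prime) (he : 1 ≤ e) (hp : p.Prime) (hd : 4 ≤ d)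
    (hk : 1 < k) (hq : 33 ≤ r ^ e) (h : ((r ^ e) ^ d - 1) / (r ^ e - 1) = p ^ k)
    (hm : Odd m) (hmk : m ∣ k) (hmr : m ∣ r - 1) (hs : 5 * s ≤ m) :
    ((d - 1) / 3 + s).choose s ≤
      Nat.card {c : ClassGroup (𝓞 (CyclotomicField d ℚ)) // c ^ m = 1} :=
  (Pool.Agent.H24.RCN.realClassTorsion hr he hp hd hk h).2.2 m s hm hmk hmr hq hs

end Pool.Agent.Results.MP_4d5ac9_nt.ManyClasses
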