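import Pool.Agent.H25.NQ.Main

/-!
# In every solution `q` is a prime, and `q <= (4k)^(4D)`
-/

set_option autoImplicit false

namespace Pool.Agent.Results.MP_4d5ac9_nt.PrimeBase

/-- Let `q = r^e` with `r` prime, `p` prime, `d >= 4`, and `k > 1` odd with `k` dividing `r - 1`.
If `(q^d - 1)/(q - 1) = p^k` then `q` is the prime `r`, that is `e = 1`, and `r <= (4k)^(4D)` for
every `D` with `6kD >= c(d+5)`, where `c = 2`, or `c = 1` if `r = d` or some power of `r` is `-1`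
modulo `d`. -/
theorem result {r e d p k c D : ℕ} (hr : r.Prime) (he : 1 ≤ e) (hp : p.Prime) (hd : 4 ≤ d)
    (hk : 1 < k) (hodd : Odd k) (hkr : k ∣ r - 1)
    (h : ((r ^ e) ^ d - 1) / (r ^ e - 1) = p ^ k)
    (hc : c = 2 ∨ (c = 1 ∧ (r = d ∨ ∃ j : ℕ, d ∣ r ^ j + 1)))
    (hD : c * (d + 5) ≤ 6 * k * D) : e = 1 ∧ r ≤ (4 * k) ^ (4 * D) := by
  have h1 := Pool.Agent.H25.NQ.base_prime hr he hp hd hk hodd hkr h
  have h2 := Pool.Agent.H25.NW.heightBound' hr he hp hd hk hodd hkr h hc hD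
  rw [h1, pow_one] at h2
  exact ⟨h1, h2⟩

end Pool.Agent.Results.MP_4d5ac9_nt.PrimeBase
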