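import Pool.Agent.H25.NW.Fin

/-!
# A Wieferich type criterion for the prime-power Nagell-Ljunggren equation
-/

set_option autoImplicit false

namespace Pool.Agent.Results.MP_4d5ac9_nt.Wieferich

/-- Every prime power `l^a` dividing `k` forces two congruences modulo `l^(a+1)`. -/
theorem result {r e d p k l a : ℕ} (hr : r.Prime) (he : 1 ≤ e) (hp : p.Prime) (hd : 4 ≤ d)
    (hk : 1 < k) (hodd : Odd k) (hkr : k ∣ r - 1)
    (h : ((r ^ e) ^ d - 1) / (r ^ e - 1) = p ^ k) (hl : l.Prime) (ha : 1 ≤ a)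
    (hlk : l ^ a ∣ k) :
    l ^ (a + 1) ∣ d ^ (l - 1) - 1 ∧
      (l ^ (a + 1) ∣ r ^ e - 1 ∨ (l ^ (a + 1) ∣ d - 1 ∧ 12 ∣ d - 1)) :=
  Pool.Agent.H25.NW.wieferich hr he hp hd hk hodd hkr h hl ha hlk

end Pool.Agent.Results.MP_4d5ac9_nt.Wieferich
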